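import Pool.Agent.Helper15.ZF.LowDeg
import Pool.Agent.Helper91.ZF.Incl
import Pool.Agent.Helper91.ZC.GenHyp
import Pool.Agent.Helper91.ZC.Quadrics

/-! # Points of a fibre are rationally equivalent -/

set_option autoImplicit false

open MvPolynomial ZC

namespace ZF

universe u

/-- Two points of a variety of low degree over a `C₂` field are rationally equivalent. -/
theorem proj_equiv {L : Type u} [Field L] (hL : C2 L) {n r : ℕ} (W : ProjVar L n r)
    (hd : ∀ i, 0 < W.d i) (hn : FibDeg n W.d) (x x' : Fin (n + 1) → L) (hx : W.IsPt x)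
    (hx' : W.IsPt x') : ZC.ptCycle W x hx - ZC.ptCycle W x' hx' ∈ ZC.ratEquiv W := by
  rcases hn with h | ⟨h1, h2⟩ | ⟨h1, h2⟩
  · obtain ⟨z, hz, h3, h4⟩ := exists_lines (K := L) hL W h x x' hx hx'
    have e1 := ZC.line_equiv W x z hx hz h3
    have e2 := ZC.line_equiv W x' z hx' hz h4
    have := (ZC.ratEquiv W).sub_mem e1 e2
    rwa [sub_sub_sub_cancel_right] at this
  · exact ZC.quad_equiv hL W h1 h2 x x' hx hx'
  · subst h1
    exact ZC.hyp_equiv hL W (hd 0) (h2 0) x x' hx hx'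

/-- Two points of the same fibre are rationally equivalent. -/
theorem fibre_equiv_of {K : Type u} [Field K] {V ι R : Type} [Finite V] {p : V → ι} {n r : ℕ}
    {X : MVar K (addBlock n p) (Fin r ⊕ R)} {B : MVar K p R} (h : X.IsOver B) {L : Type u}
    [Field L] [Algebra K L] [FiniteDimensional K L] (hL : C2 L)
    (hd : ∀ i, 0 < X.deg (Sum.inl i) none) (hn : FibDeg n fun i => X.deg (Sum.inl i) none)
    (x x' : Fin (n + 1) → L) (y : V → L) (hx : X.IsPt (Sum.elim x y))
    (hx' : X.IsPt (Sum.elim x' y)) :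
    ptCycle X (Sum.elim x y) hx - ptCycle X (Sum.elim x' y) hx' ∈ ratEquiv X :=
  fib_incl h x x' y hx hx' (proj_equiv hL (fib X y) hd hn x x' (fib_isPt hx) (fib_isPt hx'))

/-- The condition for lifting implies the condition for rational points over `C₂` fields. -/
theorem LiftDeg.sum_sq_le {n r : ℕ} {d : Fin r → ℕ} (h : LiftDeg n d) :
    ∑ i, d i ^ 2 ≤ n := by
  have key : ∀ m : ℕ, m ^ 2 ≤ m ^ 3 := by
    intro m
    rcases Nat.eq_zero_or_pos m with h0 | h0
    · rw [h0]
      norm_num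
    · exact Nat.pow_le_pow_right h0 (by norm_num)
  rcases h with h | ⟨i, hi, h1, -⟩ | ⟨h1, h2, -⟩
  · exact (Finset.sum_le_sum fun i _ => key _).trans h
  · have e : ∑ j, d j ^ 2 = d i ^ 2 + ∑ j ∈ Finset.univ.erase i, d j ^ 2 :=
      (Finset.add_sum_erase _ _ (Finset.mem_univ i)).symm
    have h3 : ∑ j ∈ Finset.univ.erase i, d j ^ 2 ≤ ∑ j ∈ Finset.univ.erase i, d j ^ 3 :=
      Finset.sum_le_sum fun j _ => key _
    have h4 : 2 * d i ^ 2 ≤ d i ^ 3 := by
      rw [pow_succ (d i) 2, mul_comm (d i ^ 2)]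
      exact Nat.mul_le_mul_right _ hi
    rw [e]
    omega
  · have : ∑ i, d i ^ 2 = 4 * r := by
      rw [Finset.sum_congr rfl fun i _ => by rw [h1 i]]
      simp
      ring
    omega

end ZF
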