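import Pool.Agent.Helper15.ZF.Fibre
import Pool.Agent.Helper15.ZF.NormSet
import Pool.Agent.Helper15.ZF.CurveNorm

/-! # Functions whose divisor on the base lifts -/

set_option autoImplicit false

open MvPolynomial ZC

namespace ZF

universe u

section ord

variable {K E : Type u} [Field K] [Field E] [Algebra K E]

theorem ord_mul' (hE : IsCurveField K E) (w : Place K E) {a b : E} (ha : a ≠ 0) (hb : b ≠ 0) :
    w.ord (a * b) = w.ord a + w.ord b :=
  (Place.isOrd_ord w (Place.dvr hE w)).mul a b ha hb

theorem ord_one' (w : Place K E) : w.ord (1 : E) = 0 :=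
  Place.ord_of_unit w (map_one _)

theorem ord_inv' (hE : IsCurveField K E) (w : Place K E) {a : E} (ha : a ≠ 0) :
    w.ord a⁻¹ = -w.ord a := by
  have h := ord_mul' hE w ha (inv_ne_zero ha)
  rw [mul_inv_cancel₀ ha, ord_one'] at h
  linarith

theorem ord_neg_one (w : Place K E) : w.ord (-1 : E) = 0 := by
  refine Place.ord_of_unit w ?_
  rw [Valuation.map_neg, map_one]

variable {V ι R : Type} [Finite V] {p : V → ι}

theorem curveCycle_mul (hE : IsCurveField K E) (B : MVar K p R) (y : V → E) (hy : B.IsPt y)
    {a b : E} (ha : a ≠ 0) (hb : b ≠ 0) :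
    curveCycle B y hy (a * b) = curveCycle B y hy a + curveCycle B y hy b := by
  rw [curveCycle, curveCycle, curveCycle, ← finsum_add_distrib (finite_support hE a _)
    (finite_support hE b _)]
  refine finsum_congr fun w => ?_
  rw [ord_mul' hE w ha hb, add_smul]

theorem curveCycle_one (B : MVar K p R) (y : V → E) (hy : B.IsPt y) :
    curveCycle B y hy (1 : E) = 0 := by
  rw [curveCycle, ← finsum_zero (α := Place K E)]
  refine finsum_congr fun w => ?_
  rw [ord_one', zero_smul]

theorem curveCycle_neg_one (B : MVar K p R) (y : V → E) (hy : B.IsPt y) :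
    curveCycle B y hy (-1 : E) = 0 := by
  rw [curveCycle, ← finsum_zero (α := Place K E)]
  refine finsum_congr fun w => ?_
  rw [ord_neg_one, zero_smul]

theorem curveCycle_inv (hE : IsCurveField K E) (B : MVar K p R) (y : V → E) (hy : B.IsPt y)
    {a : E} (ha : a ≠ 0) : curveCycle B y hy a⁻¹ = -curveCycle B y hy a := by
  have h := curveCycle_mul hE B y hy ha (inv_ne_zero ha)
  rw [mul_inv_cancel₀ ha, curveCycle_one] at h
  exact (neg_eq_of_add_eq_zero_right h.symm).symm

end ord

section lifts

variable {K : Type u} [Field K] {V ι R : Type} [Finite V] {p : V → ι} {n r : ℕ}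
  {X : MVar K (addBlock n p) (Fin r ⊕ R)} {B : MVar K p R}

/-- The norm of an element of a finite extension over which the fibre has a point. -/
theorem norm_mem_lifts (h : X.IsOver B) {E : Type u} [Field E] [Algebra K E]
    (hE : IsCurveField K E) (y : V → E) (hy : B.IsPt y) {M : Type u} [Field M] [Algebra E M]
    [FiniteDimensional E M] [Algebra K M] [IsScalarTower K E M] (x : Fin (n + 1) → M)
    (hx : (fib X y).IsPt x) (t : M) (ht : t ≠ 0) :
    ∃ c ∈ ratEquiv X, pushZ h c = curveCycle B y hy (Algebra.norm E t) := by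
  have hX := isPt_of_fib h y hy x hx
  refine ⟨curveCycle X (Sum.elim x fun v => algebraMap E M (y v)) hX t,
    AddSubgroup.subset_closure ⟨M, inferInstance, inferInstance, isCurveField_of_finite (E := E) hE,
      _, hX, t, ht, rfl⟩, ?_⟩
  rw [pushZ_curveCycle h (isCurveField_of_finite (E := E) hE)]
  exact curveCycle_norm B hE y hy (h.isPt hX) t ht

/-- M3: the functions whose cycle on `B` lifts to a cycle on `X` which is rationally equivalent
to zero. -/
theorem normSet_lifts (h : X.IsOver B) {E : Type u} [Field E] [Algebra K E]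
    (hE : IsCurveField K E) (y : V → E) (hy : B.IsPt y) :
    NormSet (fib X y).form
      {g : E | g ≠ 0 ∧ ∃ c ∈ ratEquiv X, pushZ h c = curveCycle B y hy g} := by
  set S : Set E := {g : E | g ≠ 0 ∧ ∃ c ∈ ratEquiv X, pushZ h c = curveCycle B y hy g} with hS
  have hmul : ∀ a b, a ∈ S → b ∈ S → a * b ∈ S := by
    rintro a b ⟨ha, c, hc, h1⟩ ⟨hb, c', hc', h2⟩
    exact ⟨mul_ne_zero ha hb, c + c', add_mem hc hc', by
      rw [map_add, h1, h2, curveCycle_mul hE B y hy ha hb]⟩
  have hone : (1 : E) ∈ S := ⟨one_ne_zero, 0, zero_mem _, by rw [map_zero, curveCycle_one]⟩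
  have hneg : (-1 : E) ∈ S := ⟨neg_ne_zero.2 one_ne_zero, 0, zero_mem _, by
    rw [map_zero, curveCycle_neg_one]⟩
  refine ⟨hmul, ?_, ?_⟩
  · rintro a ⟨ha, c, hc, h1⟩
    exact ⟨inv_ne_zero ha, -c, neg_mem hc, by rw [map_neg, h1, curveCycle_inv hE B y hy ha]⟩
  · intro P
    induction P using WfDvdMonoid.induction_on_irreducible with
    | zero =>
      intro h0
      exact absurd rfl h0
    | unit u hu =>
      intro h0 _
      obtain ⟨a, ha, rfl⟩ := Polynomial.isUnit_iff.1 hu
      rw [Polynomial.coeff_C_zero, Polynomial.leadingCoeff_C, div_self ha.ne_zero]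
      exact hone
    | mul a i ha hi ih =>
      intro h0 hr
      rw [Polynomial.mul_coeff_zero] at h0
      have hi0 : i.coeff 0 ≠ 0 := left_ne_zero_of_mul h0
      have ha0 : a.coeff 0 ≠ 0 := right_ne_zero_of_mul h0
      have h1 := ih ha0 fun M _ _ _ t ht => hr M t (by rw [map_mul, ht, mul_zero])
      have h2 : i.coeff 0 / i.leadingCoeff ∈ S := by
        have : Fact (Irreducible i) := ⟨hi⟩
        have hfin : FiniteDimensional E (AdjoinRoot i) :=
          (AdjoinRoot.powerBasis hi.ne_zero).finite
        have hroot : Polynomial.aeval (AdjoinRoot.root i) i = 0 := by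
          rw [AdjoinRoot.aeval_eq, AdjoinRoot.mk_self]
        obtain ⟨x, hx0, hx⟩ := hr (AdjoinRoot i) (AdjoinRoot.root i) (by
          rw [map_mul, hroot, zero_mul])
        have ht : AdjoinRoot.root i ≠ 0 := by
          intro h0'
          have h3 := hroot
          rw [h0', ← Polynomial.coeff_zero_eq_aeval_zero', map_eq_zero] at h3
          exact hi0 h3
        obtain ⟨c, hc, h4⟩ := norm_mem_lifts h hE y hy x ⟨hx0, hx⟩ (AdjoinRoot.root i) ht
        have h5 : Algebra.norm E (AdjoinRoot.root i) ∈ S :=
          ⟨Algebra.norm_ne_zero_iff.2 ht, c, hc, h4⟩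
        have h6 : Algebra.norm E (AdjoinRoot.root i) =
            (-1) ^ i.natDegree * (i.coeff 0 / i.leadingCoeff) := by
          have h7 := Algebra.PowerBasis.norm_gen_eq_coeff_zero_minpoly (AdjoinRoot.powerBasis hi.ne_zero)
          rw [AdjoinRoot.powerBasis_gen, AdjoinRoot.minpoly_root hi.ne_zero,
            AdjoinRoot.powerBasis_dim, Polynomial.mul_coeff_zero, Polynomial.coeff_C_zero] at h7
          rw [h7, div_eq_mul_inv]
        have h8 : i.coeff 0 / i.leadingCoeff = (-1) ^ i.natDegree *
            Algebra.norm E (AdjoinRoot.root i) := by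
          rw [h6, ← mul_assoc, ← mul_pow, neg_one_mul, neg_neg, one_pow, one_mul]
        rw [h8]
        have h9 : ∀ k : ℕ, (-1 : E) ^ k ∈ S := by
          intro k
          induction k with
          | zero => rw [pow_zero]; exact hone
          | succ k ih' => rw [pow_succ]; exact hmul _ _ ih' hneg
        exact hmul _ _ (h9 _) h5
      have h3 := hmul _ _ h2 h1
      rwa [div_mul_div_comm, ← Polynomial.leadingCoeff_mul, ← Polynomial.mul_coeff_zero] at h3

end lifts

end ZF
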