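import Pool.Agent.Helper63.ZF.Quad
import Pool.Agent.Helper15.ZF.NormSet
import Pool.Agent.Helper33.ZC.DegZ

/-!
# Norms from fields over which two quadratic forms have a common zero

Over a `C₃` field `E` every nonzero element is a product of norms from finite extensions over which
two given quadratic forms in at least nine variables have a common zero.
-/

set_option autoImplicit false

open MvPolynomial

namespace ZF.QB

universe u

section defs

variable {E : Type u} [Field E] {σ ι : Type}

/-- The forms have a nontrivial common zero over `L`. -/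
def HasPt (f : ι → MvPolynomial σ E) (L : Type u) [Field L] [Algebra E L] : Prop :=
  ∃ x : σ → L, x ≠ 0 ∧ ∀ i, aeval x (f i) = 0

/-- The group `G` contains the norms of the roots of the polynomials such that the forms have a
common zero over every field which contains a root. -/
def NormClosed (f : ι → MvPolynomial σ E) (G : Subgroup Eˣ) : Prop :=
  ∀ p : Polynomial E, (∀ (L : Type u) [Field L] [Algebra E L] [FiniteDimensional E L] (τ : L),
      Polynomial.aeval τ p = 0 → HasPt f L) →
    ∀ u : Eˣ, (u : E) * p.leadingCoeff = p.coeff 0 → u ∈ G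

theorem HasPt.up {f : ι → MvPolynomial σ E} (h : HasPt f E) (L : Type u) [Field L]
    [Algebra E L] : HasPt f L := by
  obtain ⟨x, hx, h1⟩ := h
  refine ⟨QB.up L x, up_ne_zero hx, fun i => ?_⟩
  have h2 := MvPolynomial.aeval_algebraMap_apply (R := E) L x (f i)
  refine h2.trans ?_
  rw [h1 i, map_zero]

theorem NormClosed.of_hasPt {f : ι → MvPolynomial σ E} {G : Subgroup Eˣ} (hG : NormClosed f G)
    (h : HasPt f E) (u : Eˣ) : u ∈ G := by
  refine hG (Polynomial.X + Polynomial.C (u : E)) (fun L _ _ _ τ _ => h.up L) u ?_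
  rw [Polynomial.leadingCoeff_X_add_C]
  simp

end defs

section poly

variable {E : Type u} [Field E]

/-- The polynomial `c₀ + c₁ T + c₂ T² + c₃ T³ + c₄ T⁴`. -/
noncomputable def pol4 (c₀ c₁ c₂ c₃ c₄ : E) : Polynomial E :=
  Polynomial.C c₄ * Polynomial.X ^ 4 + Polynomial.C c₃ * Polynomial.X ^ 3 +
    Polynomial.C c₂ * Polynomial.X ^ 2 + Polynomial.C c₁ * Polynomial.X + Polynomial.C c₀

theorem pol4_coeff_zero (c₀ c₁ c₂ c₃ c₄ : E) : (pol4 c₀ c₁ c₂ c₃ c₄).coeff 0 = c₀ := by
  simp [pol4]

theorem natDegree_pol4 (c₀ c₁ c₂ c₃ : E) {c₄ : E} (h : c₄ ≠ 0) :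
    (pol4 c₀ c₁ c₂ c₃ c₄).natDegree = 4 := by
  rw [pol4]
  compute_degree!

theorem leadingCoeff_pol4 (c₀ c₁ c₂ c₃ : E) {c₄ : E} (h : c₄ ≠ 0) :
    (pol4 c₀ c₁ c₂ c₃ c₄).leadingCoeff = c₄ := by
  rw [Polynomial.leadingCoeff, natDegree_pol4 _ _ _ _ h]
  simp [pol4]

theorem aeval_pol4 {A : Type*} [CommRing A] [Algebra E A] (τ : A) (c₀ c₁ c₂ c₃ c₄ : E) :
    Polynomial.aeval τ (pol4 c₀ c₁ c₂ c₃ c₄) =
      algebraMap E A c₀ + τ * algebraMap E A c₁ + τ ^ 2 * algebraMap E A c₂ +
        τ ^ 3 * algebraMap E A c₃ + τ ^ 4 * algebraMap E A c₄ := by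
  simp only [pol4, map_add, map_mul, map_pow, Polynomial.aeval_C, Polynomial.aeval_X]
  ring

/-- The polynomial `c₀ + c₁ T + c₂ T²`. -/
noncomputable def pol2 (c₀ c₁ c₂ : E) : Polynomial E :=
  Polynomial.C c₂ * Polynomial.X ^ 2 + Polynomial.C c₁ * Polynomial.X + Polynomial.C c₀

theorem pol2_coeff_zero (c₀ c₁ c₂ : E) : (pol2 c₀ c₁ c₂).coeff 0 = c₀ := by
  simp [pol2]

theorem natDegree_pol2 (c₀ c₁ : E) {c₂ : E} (h : c₂ ≠ 0) : (pol2 c₀ c₁ c₂).natDegree = 2 := by
  rw [pol2]
  compute_degree!

theorem leadingCoeff_pol2 (c₀ c₁ : E) {c₂ : E} (h : c₂ ≠ 0) :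
    (pol2 c₀ c₁ c₂).leadingCoeff = c₂ := by
  rw [Polynomial.leadingCoeff, natDegree_pol2 _ _ h]
  simp [pol2]

theorem aeval_pol2 {A : Type*} [CommRing A] [Algebra E A] (τ : A) (c₀ c₁ c₂ : E) :
    Polynomial.aeval τ (pol2 c₀ c₁ c₂) =
      algebraMap E A c₀ + τ * algebraMap E A c₁ + τ ^ 2 * algebraMap E A c₂ := by
  simp only [pol2, map_add, map_mul, map_pow, Polynomial.aeval_C, Polynomial.aeval_X]
  ring

end poly

section main

variable {E : Type u} [Field E] {σ ι : Type} [Nonempty σ] {f : ι → MvPolynomial σ E}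
  {G : Subgroup Eˣ} {q r : MvPolynomial σ E}

/-- The norms of the zeros of `r` on a line of the quadric `q = 0`. -/
theorem mem_line (hG : NormClosed f G) (hq : q.IsHomogeneous 2) (hr : r.IsHomogeneous 2)
    (hqr : ∀ (L : Type u) [Field L] [Algebra E L] (x : σ → L), x ≠ 0 → aeval x q = 0 →
      aeval x r = 0 → HasPt f L)
    (a b : σ → E) (ha : bil q a a = 0) (hb : bil q b b = 0) (hab : pol q a b = 0)
    (hr0 : bil r b b ≠ 0)
    (hne : ∀ (L : Type u) [Field L] [Algebra E L] (τ : L), up L a + τ • up L b ≠ 0)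
    (u : Eˣ) (hu : (u : E) * bil r b b = bil r a a) : u ∈ G := by
  refine hG (pol2 (bil r a a) (pol r a b) (bil r b b)) (fun L _ _ _ τ hτ => ?_) u ?_
  · refine hqr L (up L a + τ • up L b) (hne L τ) ?_ ?_
    · rw [aeval_eq_bil hq, bil_line, bil_up, bil_up, pol_up, ha, hb, hab]
      simp only [map_zero]
      ring
    · rw [aeval_eq_bil hr, bil_line, bil_up, bil_up, pol_up, ← hτ, aeval_pol2]
  · rw [pol2_coeff_zero, leadingCoeff_pol2 _ _ hr0, hu]

/-- The norms of the zeros of `r` on a conic of the quadric `q = 0`. -/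
theorem mem_conic (hG : NormClosed f G) (hq : q.IsHomogeneous 2) (hr : r.IsHomogeneous 2)
    (hqr : ∀ (L : Type u) [Field L] [Algebra E L] (x : σ → L), x ≠ 0 → aeval x q = 0 →
      aeval x r = 0 → HasPt f L)
    (x x' z : σ → E) (hx : bil q x x = 0) (hx' : bil q x' x' = 0) (hA : pol q x' x ≠ 0)
    (hz : pol q x z = 0) (hz' : pol q x' z = 0) (hD : bil q z z ≠ 0)
    (hr0 : bil r x x ≠ 0)
    (u : Eˣ) (hu : (u : E) * ((pol q x' x * bil q z z) ^ 2 * bil r x x) = bil r x' x') :
    u ∈ G := by
  set A := pol q x' x with hAdef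
  set D := bil q z z with hDdef
  have hlead : (A * D) ^ 2 * bil r x x ≠ 0 :=
    mul_ne_zero (pow_ne_zero _ (mul_ne_zero hA hD)) hr0
  have hxx : pol q x x = 0 := by rw [pol, hx, add_zero]
  refine hG (pol4 (bil r x' x') (A * pol r x' z) (A ^ 2 * bil r z z - A * D * pol r x' x)
    (-(A ^ 2 * D * pol r z x)) ((A * D) ^ 2 * bil r x x)) (fun L _ _ _ τ hτ => ?_) u ?_
  · have key : ∀ {s : MvPolynomial σ E}, bil s (up L x' + τ • (algebraMap E L A • up L z) +
        τ ^ 2 • (-(algebraMap E L (A * D)) • up L x))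
        (up L x' + τ • (algebraMap E L A • up L z) +
        τ ^ 2 • (-(algebraMap E L (A * D)) • up L x)) =
        algebraMap E L (bil s x' x') + τ * algebraMap E L (A * pol s x' z) +
        τ ^ 2 * algebraMap E L (A ^ 2 * bil s z z - A * D * pol s x' x) +
        τ ^ 3 * algebraMap E L (-(A ^ 2 * D * pol s z x)) +
        τ ^ 4 * algebraMap E L ((A * D) ^ 2 * bil s x x) := by
      intro s
      rw [bil_curve]
      simp only [bil_smul_left, bil_smul_right, pol, bil_up, map_add, map_mul, map_neg, map_sub,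
        map_pow]
      ring
    refine hqr L (up L x' + τ • (algebraMap E L A • up L z) +
        τ ^ 2 • (-(algebraMap E L (A * D)) • up L x)) ?_ ?_ ?_
    · intro h0
      have h1 : pol q (up L x' + τ • (algebraMap E L A • up L z) +
        τ ^ 2 • (-(algebraMap E L (A * D)) • up L x)) (up L x) = algebraMap E L A := by
        rw [pol_add_left, pol_add_left, pol_smul_left, pol_smul_left, pol_smul_left,
          pol_smul_left, pol_up, pol_up, pol_up, pol_comm z x, hz, hxx]
        simp only [map_zero, mul_zero, add_zero]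
        rfl
      rw [h0] at h1
      have h2 : pol q (0 : σ → L) (up L x) = 0 := by
        have := pol_smul_left (q := q) (0 : L) (0 : σ → L) (up L x)
        rwa [zero_smul, zero_mul] at this
      rw [h2] at h1
      exact hA ((algebraMap E L).injective (h1.symm.trans (map_zero _).symm))
    · rw [aeval_eq_bil hq, key, hx', hz', ← hDdef, ← hAdef, pol_comm z x, hz, hx]
      simp only [map_zero, mul_zero, neg_zero]
      have : A ^ 2 * D - A * D * A = 0 := by ring
      rw [this]
      simp
    · rw [aeval_eq_bil hr, key, ← hτ, aeval_pol4]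
  · rw [pol4_coeff_zero, leadingCoeff_pol4 _ _ _ _ hlead, hu]

/-- A solution of `(q, r) (x) = g (q, r) (x')` for a nonsquare `g`. -/
theorem mem_of_pair [Fintype σ] (hE : ZF.HasC 3 E) (hcard : 9 ≤ Fintype.card σ)
    (hG : NormClosed f G) (hq : q.IsHomogeneous 2) (hr : r.IsHomogeneous 2)
    (hqr : ∀ (L : Type u) [Field L] [Algebra E L] (x : σ → L), x ≠ 0 → aeval x q = 0 →
      aeval x r = 0 → HasPt f L)
    (u : Eˣ) (hsq : ¬ IsSquare (u : E)) (x x' : σ → E) (hx : bil q x x = 0)
    (hx' : bil q x' x' = 0) (hr' : bil r x' x' ≠ 0) (hu : bil r x x = u * bil r x' x') :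
    u ∈ G := by
  classical
  have hr0 : bil r x x ≠ 0 := by
    rw [hu]
    exact mul_ne_zero u.ne_zero hr'
  by_cases hA : pol q x' x = 0
  · -- the line through the two points
    have hne : ∀ (L : Type u) [Field L] [Algebra E L] (τ : L), up L x' + τ • up L x ≠ 0 := by
      intro L _ _ τ h0
      have hx0 : x ≠ 0 := by
        rintro rfl
        apply hr0
        have := bil_smul_left (q := r) (0 : E) (0 : σ → E) (0 : σ → E)
        rwa [zero_smul, zero_mul] at this
      obtain ⟨s, hs⟩ := Function.ne_iff.1 hx0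
      rw [Pi.zero_apply] at hs
      have h1 : ∀ t, x' t = (x' s / x s) * x t := by
        intro t
        have e1 : algebraMap E L (x' s) + τ * algebraMap E L (x s) = 0 := congrFun h0 s
        have e2 : algebraMap E L (x' t) + τ * algebraMap E L (x t) = 0 := congrFun h0 t
        have hs' : algebraMap E L (x s) ≠ 0 := (_root_.map_ne_zero _).2 hs
        apply (algebraMap E L).injective
        rw [map_mul, map_div₀]
        have e3 : algebraMap E L (x' s) = -τ * algebraMap E L (x s) := by linear_combination e1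
        have e4 : algebraMap E L (x' t) = -τ * algebraMap E L (x t) := by linear_combination e2
        rw [e3, e4, mul_div_cancel_right₀ _ hs']
      have h2 : x' = (x' s / x s) • x := funext h1
      have h3 : bil r x' x' = (x' s / x s) ^ 2 * bil r x x := by
        conv_lhs => rw [h2, bil_smul_left, bil_smul_right]
        ring
      apply hsq
      have h5 : (x' s / x s) ^ 2 * (u : E) = 1 := by
        have : (x' s / x s) ^ 2 * (u : E) * bil r x' x' = 1 * bil r x' x' := by
          rw [one_mul]
          conv_rhs => rw [h3, hu]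
          ring
        exact mul_right_cancel₀ hr' this
      have hne : x' s / x s ≠ 0 := by
        intro h
        rw [h] at h5
        simp at h5
      refine ⟨(x' s / x s)⁻¹, ?_⟩
      rw [← mul_inv]
      refine eq_inv_of_mul_eq_one_left ?_
      linear_combination h5
    have h1 : u⁻¹ ∈ G := by
      refine mem_line hG hq hr hqr x' x hx' hx hA hr0 hne u⁻¹ ?_
      rw [hu, ← mul_assoc, Units.inv_mul, one_mul]
    exact (inv_mem_iff).1 h1
  -- conics
  have hxx : pol q x x = 0 := by rw [pol, hx, add_zero]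
  have hxx' : pol q x' x' = 0 := by rw [pol, hx', add_zero]
  have key : ∀ c : Eˣ, u ∈ G ∨ ∃ D D' : E, D ≠ 0 ∧ D' ≠ 0 ∧ D = c * D' ∧
      (∀ v : Eˣ, (v : E) * ((pol q x' x * D) ^ 2 * u) = 1 → v ∈ G) ∧
      ∀ v : Eˣ, (v : E) * ((pol q x' x * D') ^ 2 * u) = 1 → v ∈ G := by
    intro c
    let F : Fin 5 → MvPolynomial (σ ⊕ σ) E := ![rename Sum.inl q - C (c : E) * rename Sum.inr q,
      rename Sum.inl (lin q x), rename Sum.inl (lin q x'), rename Sum.inr (lin q x),
      rename Sum.inr (lin q x')]
    let e : Fin 5 → ℕ := ![2, 1, 1, 1, 1]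
    have hF : ∀ i, (F i).IsHomogeneous (e i) := by
      intro i
      fin_cases i
      · refine (hq.rename_isHomogeneous).sub ?_
        have := (isHomogeneous_C (σ ⊕ σ) (c : E)).mul (hq.rename_isHomogeneous (f := Sum.inr))
        rwa [zero_add] at this
      · exact (lin_hom q x).rename_isHomogeneous
      · exact (lin_hom q x').rename_isHomogeneous
      · exact (lin_hom q x).rename_isHomogeneous
      · exact (lin_hom q x').rename_isHomogeneous
    have he : ∀ i, 0 < e i := by
      intro i
      fin_cases i <;> simp [e]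
    have hsum : ∑ i, e i ^ 3 < Fintype.card (σ ⊕ σ) := by
      rw [Fintype.card_sum, Fin.sum_univ_five]
      simp only [e, Matrix.cons_val]
      omega
    obtain ⟨y, hy0, hy⟩ := hE (Fin 5) (σ ⊕ σ) F e hF he hsum
    set z : σ → E := fun s => y (Sum.inl s) with hzdef
    set z' : σ → E := fun s => y (Sum.inr s) with hzdef'
    have g0 : bil q z z = c * bil q z' z' := by
      have := hy 0
      simp only [F, Matrix.cons_val, map_sub, map_mul, eval_rename, eval_C] at this
      rw [← aeval_eq_bil hq, ← aeval_eq_bil hq, ← sub_eq_zero]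
      exact this
    have g1 : pol q x z = 0 := by
      have := hy 1
      simp only [F, Matrix.cons_val, eval_rename] at this
      rwa [eval_lin] at this
    have g2 : pol q x' z = 0 := by
      have := hy 2
      simp only [F, Matrix.cons_val, eval_rename] at this
      rwa [eval_lin] at this
    have g3 : pol q x z' = 0 := by
      have := hy 3
      simp only [F, Matrix.cons_val, eval_rename] at this
      rwa [eval_lin] at this
    have g4 : pol q x' z' = 0 := by
      have := hy 4
      simp only [F, Matrix.cons_val, eval_rename] at this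
      rwa [eval_lin] at this
    -- an isotropic vector orthogonal to both points
    have iso : ∀ w : σ → E, w ≠ 0 → bil q w w = 0 → pol q x w = 0 → pol q x' w = 0 → u ∈ G := by
      intro w hw0 hw hw1 hw2
      by_cases hrw : bil r w w = 0
      · refine hG.of_hasPt (hqr E w hw0 ?_ ?_) u
        · rw [aeval_eq_bil hq, hw]
        · rw [aeval_eq_bil hr, hrw]
      have m1 : Units.mk0 _ hr' / Units.mk0 _ hrw ∈ G := by
        refine mem_line hG hq hr hqr x' w hx' hw hw2 hrw ?_ _ ?_
        · intro L _ _ τ h0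
          have h1 : pol q (up L x' + τ • up L w) (up L x) = algebraMap E L (pol q x' x) := by
            rw [pol_add_left, pol_smul_left, pol_up, pol_up, pol_comm w x, hw1]
            simp only [map_zero, mul_zero, add_zero]
          rw [h0, pol_zero_left] at h1
          exact hA ((algebraMap E L).injective (h1.symm.trans (map_zero _).symm))
        · rw [Units.val_div_eq_div_val, Units.val_mk0, Units.val_mk0, div_mul_cancel₀ _ hrw]
      have m2 : Units.mk0 _ hrw / Units.mk0 _ hr0 ∈ G := by
        refine mem_line hG hq hr hqr w x hw hx (by rw [pol_comm]; exact hw1) hr0 ?_ _ ?_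
        · intro L _ _ τ h0
          have h1 : pol q (up L w + τ • up L x) (up L x') = τ * algebraMap E L (pol q x' x) := by
            rw [pol_add_left, pol_smul_left, pol_up, pol_up, pol_comm w x', hw2, pol_comm x x']
            simp only [map_zero, zero_add]
          rw [h0, pol_zero_left] at h1
          have h2 : τ = 0 := by
            rcases mul_eq_zero.1 h1.symm with h | h
            · exact h
            · exact absurd ((algebraMap E L).injective (h.trans (map_zero _).symm)) hA
          rw [h2, zero_smul, add_zero] at h0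
          exact up_ne_zero hw0 h0
        · rw [Units.val_div_eq_div_val, Units.val_mk0, Units.val_mk0, div_mul_cancel₀ _ hr0]
      have m3 := mul_mem m1 m2
      rw [div_mul_div_cancel] at m3
      have e1 : Units.mk0 _ hr' / Units.mk0 _ hr0 = u⁻¹ := by
        apply Units.ext
        rw [Units.val_div_eq_div_val, Units.val_mk0, Units.val_mk0, hu, Units.val_inv_eq_inv_val]
        field_simp
      rw [e1] at m3
      exact inv_mem_iff.1 m3
    by_cases hD : bil q z z = 0
    · left
      have hD' : bil q z' z' = 0 := by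
        rw [hD] at g0
        rcases mul_eq_zero.1 g0.symm with h | h
        · exact absurd h c.ne_zero
        · exact h
      by_cases hz0 : z = 0
      · have hz0' : z' ≠ 0 := by
          intro h
          apply hy0
          funext s
          rcases s with s | s
          · exact congrFun hz0 s
          · exact congrFun h s
        exact iso z' hz0' hD' g3 g4
      · exact iso z hz0 hD g1 g2
    · right
      have hD' : bil q z' z' ≠ 0 := by
        intro h
        rw [h, mul_zero] at g0
        exact hD g0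
      refine ⟨_, _, hD, hD', g0, fun v hv => ?_, fun v hv => ?_⟩
      · refine mem_conic hG hq hr hqr x x' z hx hx' hA g1 g2 hD hr0 v ?_
        rw [hu]
        linear_combination (bil r x' x') * hv
      · refine mem_conic hG hq hr hqr x x' z' hx hx' hA g3 g4 hD' hr0 v ?_
        rw [hu]
        linear_combination (bil r x' x') * hv
  by_contra hcon
  have hsqG : ∀ c : Eˣ, c ^ 2 ∈ G := by
    intro c
    obtain h | ⟨D, D', hD, hD', hDD, h1, h2⟩ := key c
    · exact absurd h hcon
    · have m1 := h1 (((Units.mk0 _ hA * Units.mk0 D hD) ^ 2 * u)⁻¹) (by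
        have : (((Units.mk0 _ hA * Units.mk0 D hD) ^ 2 * u : Eˣ) : E) =
          (pol q x' x * D) ^ 2 * u := rfl
        rw [← this, Units.inv_mul])
      have m2 := h2 (((Units.mk0 _ hA * Units.mk0 D' hD') ^ 2 * u)⁻¹) (by
        have : (((Units.mk0 _ hA * Units.mk0 D' hD') ^ 2 * u : Eˣ) : E) =
          (pol q x' x * D') ^ 2 * u := rfl
        rw [← this, Units.inv_mul])
      have m3 := div_mem m2 m1
      have e1 : Units.mk0 D hD = c * Units.mk0 D' hD' := Units.ext hDD
      rw [e1] at m3
      have e2 : ((Units.mk0 _ hA * Units.mk0 D' hD') ^ 2 * u)⁻¹ /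
          ((Units.mk0 _ hA * (c * Units.mk0 D' hD')) ^ 2 * u)⁻¹ = c ^ 2 := by
        rw [div_inv_eq_mul, inv_mul_eq_iff_eq_mul]
        apply Units.ext
        push_cast
        ring
      rwa [e2] at m3
  obtain h | ⟨D, D', hD, hD', hDD, h1, h2⟩ := key 1
  · exact hcon h
  · have m1 := h1 (((Units.mk0 _ hA * Units.mk0 D hD) ^ 2 * u)⁻¹) (by
      have : (((Units.mk0 _ hA * Units.mk0 D hD) ^ 2 * u : Eˣ) : E) =
        (pol q x' x * D) ^ 2 * u := rfl
      rw [← this, Units.inv_mul])
    have m2 := inv_mem m1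
    rw [inv_inv] at m2
    have m3 := mul_mem (inv_mem (hsqG (Units.mk0 _ hA * Units.mk0 D hD))) m2
    rw [inv_mul_cancel_left] at m3
    exact hcon m3

/-- Two quadratic forms in at least nine variables over a `C₃` field: the norms. -/
theorem mem_of_not_isSquare [Fintype σ] (hE : HasC 3 E) (hcard : 9 ≤ Fintype.card σ)
    {f : Fin 2 → MvPolynomial σ E} (hf : ∀ i, (f i).IsHomogeneous 2) (hG : NormClosed f G)
    (u : Eˣ) (hsq : ¬ IsSquare (u : E)) : u ∈ G := by
  classical
  let F : Fin 2 → MvPolynomial (σ ⊕ σ) E := fun i =>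
    rename Sum.inl (f i) - C (u : E) * rename Sum.inr (f i)
  have hF : ∀ i, (F i).IsHomogeneous 2 := by
    intro i
    refine ((hf i).rename_isHomogeneous).sub ?_
    have := (isHomogeneous_C (σ ⊕ σ) (u : E)).mul ((hf i).rename_isHomogeneous (f := Sum.inr))
    rwa [zero_add] at this
  have hsum : ∑ _i : Fin 2, 2 ^ 3 < Fintype.card (σ ⊕ σ) := by
    rw [Fintype.card_sum, Fin.sum_univ_two]
    omega
  obtain ⟨y, hy0, hy⟩ := hE (Fin 2) (σ ⊕ σ) F (fun _ => 2) hF (fun _ => two_pos) hsum
  set x : σ → E := fun s => y (Sum.inl s) with hx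
  set x' : σ → E := fun s => y (Sum.inr s) with hx'
  have hxx : ∀ i, bil (f i) x x = u * bil (f i) x' x' := by
    intro i
    have := hy i
    simp only [F, map_sub, map_mul, eval_rename, eval_C] at this
    rw [← aeval_eq_bil (hf i), ← aeval_eq_bil (hf i), ← sub_eq_zero]
    exact this
  have hzero : (∀ i, bil (f i) x' x' = 0) → u ∈ G := by
    intro h
    by_cases h0 : x' = 0
    · have h1 : x ≠ 0 := by
        intro h1
        apply hy0
        funext s
        rcases s with s | s
        · exact congrFun h1 s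
        · exact congrFun h0 s
      refine hG.of_hasPt ⟨x, h1, fun i => ?_⟩ u
      rw [aeval_eq_bil (hf i), hxx i, h i, mul_zero]
    · refine hG.of_hasPt ⟨x', h0, fun i => ?_⟩ u
      rw [aeval_eq_bil (hf i), h i]
  -- the form of the pencil which vanishes at the points
  let q : MvPolynomial σ E := C (bil (f 1) x' x') * f 0 - C (bil (f 0) x' x') * f 1
  have hq : q.IsHomogeneous 2 := by
    have h1 := (isHomogeneous_C σ (bil (f 1) x' x')).mul (hf 0)
    have h2 := (isHomogeneous_C σ (bil (f 0) x' x')).mul (hf 1)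
    rw [zero_add] at h1 h2
    exact h1.sub h2
  have hqa : ∀ (L : Type u) [Field L] [Algebra E L] (w : σ → L), aeval w q =
      algebraMap E L (bil (f 1) x' x') * aeval w (f 0) -
        algebraMap E L (bil (f 0) x' x') * aeval w (f 1) := by
    intro L _ _ w
    simp only [q, map_sub, map_mul, aeval_C]
  have hqx' : bil q x' x' = 0 := by
    rw [← aeval_eq_bil hq, hqa, aeval_eq_bil (hf 0), aeval_eq_bil (hf 1)]
    simp only [Algebra.algebraMap_self, RingHom.id_apply]
    ring
  have hqx : bil q x x = 0 := by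
    rw [← aeval_eq_bil hq, hqa, aeval_eq_bil (hf 0), aeval_eq_bil (hf 1), hxx 0, hxx 1]
    simp only [Algebra.algebraMap_self, RingHom.id_apply]
    ring
  by_cases h0 : bil (f 0) x' x' = 0
  · by_cases h1 : bil (f 1) x' x' = 0
    · exact hzero fun i => by
        fin_cases i
        · exact h0
        · exact h1
    · refine mem_of_pair hE hcard hG hq (hf 1) (fun L _ _ w hw hw0 hw1 => ⟨w, hw, fun i => ?_⟩)
        u hsq x x' hqx hqx' h1 (hxx 1)
      rw [hqa, hw1, mul_zero, sub_zero] at hw0
      fin_cases i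
      · exact (mul_eq_zero.1 hw0).resolve_left ((_root_.map_ne_zero _).2 h1)
      · exact hw1
  · refine mem_of_pair hE hcard hG hq (hf 0) (fun L _ _ w hw hw0 hw1 => ⟨w, hw, fun i => ?_⟩)
      u hsq x x' hqx hqx' h0 (hxx 0)
    rw [hqa, hw1, mul_zero, zero_sub, neg_eq_zero] at hw0
    fin_cases i
    · exact hw1
    · exact (mul_eq_zero.1 hw0).resolve_left ((_root_.map_ne_zero _).2 h0)

end main

end ZF.QB

namespace ZF

universe u

/-- Not every element of a function field of one variable is a square. -/
theorem exists_nonsquare {K E : Type u} [Field K] [Field E] [Algebra K E]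
    (hE : ZC.IsCurveField K E) : ∃ h : E, ¬ IsSquare h := by
  obtain ⟨t, ht, _⟩ := id hE
  obtain ⟨w, _⟩ := ZC.exists_placeK ht
  have ho := ZC.Place.isOrd_ord w (ZC.Place.dvr hE w)
  obtain ⟨x, hx, hx1⟩ := ho.surj
  refine ⟨x, ?_⟩
  rintro ⟨y, hy⟩
  have hy0 : y ≠ 0 := by
    rintro rfl
    rw [mul_zero] at hy
    exact hx hy
  have h1 := ho.mul y y hy0 hy0
  rw [← hy, hx1] at h1
  omega

/-- **Norms from the fields over which an intersection of two quadrics has a point.** -/
theorem NormSet.of_quad {E : Type u} [Field E] (hE : HasC 3 E)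
    (hns : ∃ h : E, ¬ IsSquare h) {n : ℕ} (hn : 8 ≤ n)
    (f : Fin 2 → MvPolynomial (Fin (n + 1)) E) (hf : ∀ i, (f i).IsHomogeneous 2) {S : Set E}
    (hS : NormSet f S) (g : E) (hg : g ≠ 0) : g ∈ S := by
  have h1 : (1 : E) ∈ S := by
    have := hS.poly 1 (by simp) (fun M _ _ _ t ht => by simp at ht)
    simpa using this
  let G : Subgroup Eˣ :=
    { carrier := {u | (u : E) ∈ S}
      mul_mem' := fun {a b} ha hb => by
        change ((a * b : Eˣ) : E) ∈ S
        rw [Units.val_mul]
        exact hS.mul _ _ ha hb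
      one_mem' := h1
      inv_mem' := fun {a} ha => by
        change ((a⁻¹ : Eˣ) : E) ∈ S
        rw [Units.val_inv_eq_inv_val]
        exact hS.inv _ ha }
  have hG : QB.NormClosed f G := by
    intro p hp u hu
    change (u : E) ∈ S
    by_cases hp0 : p = 0
    · have h2 := hS.poly (Polynomial.X + Polynomial.C (u : E)) (by simp)
        (fun M _ _ _ t _ => (hp E 0 (by rw [hp0, map_zero])).up M)
      rw [Polynomial.leadingCoeff_X_add_C] at h2
      simpa using h2
    have hl : p.leadingCoeff ≠ 0 := Polynomial.leadingCoeff_ne_zero.2 hp0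
    have hc : p.coeff 0 ≠ 0 := by
      rw [← hu]
      exact mul_ne_zero u.ne_zero hl
    have := hS.poly p hc (fun M _ _ _ t ht => hp M t ht)
    rwa [← hu, mul_div_cancel_right₀ _ hl] at this
  have hcard : 9 ≤ Fintype.card (Fin (n + 1)) := by
    rw [Fintype.card_fin]
    omega
  obtain ⟨h, hh⟩ := hns
  have hh0 : h ≠ 0 := by
    rintro rfl
    exact hh (IsSquare.zero)
  have m1 := QB.mem_of_not_isSquare hE hcard hf hG (Units.mk0 h hh0) hh
  have key : Units.mk0 g hg ∈ G := by
    by_cases hgs : IsSquare g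
    · have m2 := QB.mem_of_not_isSquare hE hcard hf hG (Units.mk0 g hg * Units.mk0 h hh0) (by
        intro hsq
        apply hh
        have h3 := hsq.div hgs
        have h4 : ((Units.mk0 g hg * Units.mk0 h hh0 : Eˣ) : E) / g = h := by
          change g * h / g = h
          rw [mul_div_cancel_left₀ _ hg]
        rwa [h4] at h3)
      have m3 := div_mem m2 m1
      rwa [mul_div_cancel_right] at m3
    · exact QB.mem_of_not_isSquare hE hcard hf hG (Units.mk0 g hg) hgs
  exact key

end ZF
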