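import Pool.Agent.Helper72.ZF.Defs
import Pool.Agent.Helper91.ZF.C3

/-!
# Families: points of one fibre are rationally equivalent (row FFIB)
-/

set_option autoImplicit false

open MvPolynomial

namespace ZC

universe u

section fibre

variable {K : Type u} [Field K]

/-- The form `f` with the coordinates `x` inserted for the first set of variables. -/
noncomputable def fibreForm {L : Type*} [Field L] [Algebra K L] {σ τ : Type*} (x : σ → L)
    (f : MvPolynomial (σ ⊕ τ) K) : MvPolynomial τ L :=
  aeval (Sum.elim (fun i => C (x i)) X) f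

theorem aeval_fibreForm {L E : Type*} [Field L] [Algebra K L] [Field E] [Algebra K E] [Algebra L E]
    [IsScalarTower K L E] {σ τ : Type*} (x : σ → L) (y : τ → E) (f : MvPolynomial (σ ⊕ τ) K) :
    aeval y (fibreForm x f) = aeval (Sum.elim (fun i => algebraMap L E (x i)) y) f := by
  have h := comp_aeval_apply (R := K) (Sum.elim (fun i => C (x i)) X : σ ⊕ τ → MvPolynomial τ L)
    ((aeval y : MvPolynomial τ L →ₐ[L] E).restrictScalars K) f
  refine h.trans ?_
  congr 2
  funext i
  cases i with
  | inl i =>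
    change aeval y (C (x i)) = _
    rw [aeval_C]
    rfl
  | inr i =>
    change aeval y (X i) = _
    rw [aeval_X]
    rfl

theorem fibreForm_hom {L : Type*} [Field L] [Algebra K L] {σ τ : Type*} (x : σ → L)
    {f : MvPolynomial (σ ⊕ τ) K} {d : ℕ}
    (h : f.IsWeightedHomogeneous (Sum.elim (fun _ => 0) (fun _ => 1)) d) :
    (fibreForm x f).IsHomogeneous d := by
  classical
  rw [fibreForm, aeval_def, eval₂_eq]
  refine IsHomogeneous.sum _ _ _ fun μ hμ => ?_
  have hd : ∑ i ∈ μ.support, μ i * Sum.elim (fun _ : σ => 0) (fun _ : τ => 1) i = d := by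
    have h1 := h (mem_support_iff.1 hμ)
    rw [← h1, Finsupp.weight_apply, Finsupp.sum]
    rfl
  rw [← hd, ← zero_add (∑ i ∈ μ.support, _)]
  refine IsHomogeneous.mul ?_ (IsHomogeneous.prod _ _ _ fun i _ => ?_)
  · exact isHomogeneous_C _ _
  · cases i with
    | inl i =>
      change ((C (x i)) ^ _ : MvPolynomial τ L).IsHomogeneous (μ (Sum.inl i) * 0)
      rw [mul_zero]
      have h1 := (isHomogeneous_C τ (x i)).pow (μ (Sum.inl i))
      rwa [zero_mul] at h1
    | inr i =>
      change ((X i) ^ _ : MvPolynomial τ L).IsHomogeneous (μ (Sum.inr i) * 1)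
      have h1 := (isHomogeneous_X L i).pow (μ (Sum.inr i))
      rw [mul_one]
      rwa [one_mul] at h1

variable {m s : ℕ} {B : ProjVar K m s} {n r : ℕ}

/-- The fibre of the family over the point with the coordinates `x`. -/
noncomputable def Family.fibre (X : Family B n r) {L : Type u} [Field L] [Algebra K L]
    (x : Fin (m + 1) → L) : ProjVar L n r where
  form i := fibreForm x (X.form i)
  d := X.d
  hom i := fibreForm_hom x (X.hom₂ i)

theorem Family.fibre_isPt (X : Family B n r) {L E : Type u} [Field L] [Algebra K L] [Field E]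
    [Algebra K E] [Algebra L E] [IsScalarTower K L E] (x : Fin (m + 1) → L)
    (y : Fin (n + 1) → E) : (X.fibre x).IsPt y ↔
      y ≠ 0 ∧ ∀ i, aeval (Sum.elim (fun i => algebraMap L E (x i)) y) (X.form i) = 0 := by
  refine and_congr_right fun _ => forall_congr' fun i => ?_
  rw [← aeval_fibreForm]
  rfl

theorem Family.fibre_isPt' (X : Family B n r) {L : Type u} [Field L] [Algebra K L]
    (x : Fin (m + 1) → L) (hx : B.IsPt x) (y : Fin (n + 1) → L) :
    (X.fibre x).IsPt y ↔ X.IsPt x y := by
  rw [X.fibre_isPt x y]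
  exact ⟨fun h => ⟨hx, h⟩, fun h => h.2⟩

/-- existence of points in fibres, over a `C2` field -/
theorem Family.exists_fibre_pt (X : Family B n r) {L : Type u} [Field L] [Algebra K L] (hL : C2 L)
    (hd : ∀ i, 0 < X.d i) (hn : ∑ i, X.d i ^ 2 ≤ n) (x : Fin (m + 1) → L) (hx : B.IsPt x) :
    ∃ y, X.IsPt x y := by
  obtain ⟨y, hy⟩ := exists_point hL (X.fibre x) hd hn
  exact ⟨y, (X.fibre_isPt' x hx y).1 hy⟩

/-- existence of points in fibres, over a `C3` field -/
theorem Family.exists_fibre_pt₃ (X : Family B n r) {E : Type u} [Field E] [Algebra K E]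
    (hE : C3 E) (hd : ∀ i, 0 < X.d i) (hn : ∑ i, X.d i ^ 3 ≤ n) (x : Fin (m + 1) → E)
    (hx : B.IsPt x) : ∃ y, X.IsPt x y := by
  obtain ⟨y, hy0, hy⟩ := hE (n + 1) r X.d (X.fibre x).form (X.fibre x).hom hd
    (Nat.lt_succ_of_le hn)
  refine ⟨y, (X.fibre_isPt' x hx y).1 ⟨hy0, fun i => ?_⟩⟩
  rw [aeval_eq_eval]
  exact hy i

end fibre

end ZC
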