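import Pool.Agent.Helper63.ZF.Fib
import Pool.Agent.Helper91.ZF.Cong

/-!
# Families: rational equivalence along a line of a fibre (row FFIB)
-/

set_option autoImplicit false

open MvPolynomial

namespace ZC

universe u

section line

variable {K L E : Type u} [Field K] [Field L] [Field E] [Algebra K L] [Algebra L E] [Algebra K E]
  [IsScalarTower K L E] [Algebra.IsAlgebraic K L] {m s : ℕ} {B : ProjVar K m s} {n r : ℕ}

/-- The value at `t = 0` of the point `y + t z` of the fibre over `x`. -/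
theorem Family.ptCycle_red (X : Family B n r) (w : Place K E) {t : E}
    (hw : w.A.valuation t < 1) (hadj : IntermediateField.adjoin L {t} = ⊤)
    (x : Fin (m + 1) → L) (y z : Fin (n + 1) → L) (hy : X.IsPt x y)
    (x' : Fin (m + 1) → E) (y' : Fin (n + 1) → E) (h' : X.IsPt x' y') (g : E)
    (hx' : ∀ i, x' i = algebraMap L E (x i))
    (hy' : ∀ i, y' i = g * (algebraMap L E (y i) + t * algebraMap L E (z i))) :
    X.ptCycle (red w x' h'.1.1) (red w y' h'.2.1) (X.red_isPt w x' y' h') =
      X.ptCycle x y hy := by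
  obtain ⟨i₀, hi₀⟩ : ∃ i, x i ≠ 0 := by
    by_contra hcon
    push Not at hcon
    exact hy.1.1 (funext hcon)
  obtain ⟨j₀, hj₀⟩ : ∃ i, y i ≠ 0 := by
    by_contra hcon
    push Not at hcon
    exact hy.2.1 (funext hcon)
  let x'' : Fin (m + 1) → w.A := fun i => Place.emL w (x i)
  let y'' : Fin (n + 1) → w.A := fun i =>
    Place.emL w (y i) + ⟨t, Place.t_mem w hw⟩ * Place.emL w (z i)
  have hresx : ∀ i, IsLocalRing.residue w.A (x'' i) = Place.emRes w (x i) := fun i => rfl
  have hres : ∀ i, IsLocalRing.residue w.A (y'' i) = Place.emRes w (y i) := by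
    intro i
    change IsLocalRing.residue w.A (_ + _ * _) = _
    rw [map_add, map_mul, Place.residue_t w hw, zero_mul, add_zero]
    rfl
  have hux : IsUnit (x'' i₀) := by
    rw [← IsLocalRing.residue_ne_zero_iff_isUnit, hresx]
    exact (_root_.map_ne_zero _).2 hi₀
  have huy : IsUnit (y'' j₀) := by
    rw [← IsLocalRing.residue_ne_zero_iff_isUnit, hres]
    exact (_root_.map_ne_zero _).2 hj₀
  obtain ⟨b, hb, h1⟩ := red_eq w x' h'.1.1 1 x'' (fun i => by rw [hx' i, one_mul]; rfl) i₀ hux
  obtain ⟨c, hc, h2⟩ := red_eq w y' h'.2.1 g y'' hy' j₀ huy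
  refine (X.ptCycle_congr (Place.resEquiv w hw hadj) b c hb hc hy _ (fun i => ?_)
    fun i => ?_).symm
  · rw [h1 i, hresx, Place.resEquiv_apply]
  · rw [h2 i, hres, Place.resEquiv_apply]

end line

section ratfunc

variable {K L : Type u} [Field K] [Field L] [Algebra K L] {m s : ℕ} {B : ProjVar K m s} {n r : ℕ}

/-- The points at `0` and `∞` of a parametrised line of a fibre are rationally equivalent. -/
theorem Family.line_equiv [FiniteDimensional K L] (X : Family B n r) (x : Fin (m + 1) → L)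
    (y z : Fin (n + 1) → L) (hy : X.IsPt x y) (hz : X.IsPt x z)
    (h : X.IsPt (fun i => RatFunc.C (x i) : Fin (m + 1) → RatFunc L)
      (fun i => RatFunc.C (y i) + RatFunc.X * RatFunc.C (z i) : Fin (n + 1) → RatFunc L)) :
    X.ptCycle x y hy - X.ptCycle x z hz ∈ X.ratEquiv := by
  classical
  refine AddSubgroup.subset_closure ⟨RatFunc L, inferInstance, inferInstance,
    isCurveField_ratFunc, _, _, h, RatFunc.X, RatFunc.X_ne_zero, ?_⟩
  let w0 : Place K (RatFunc L) := zeroPlace K (RatFunc.X : RatFunc L) transcendental_X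
    RatFunc.adjoin_X
  let w1 : Place K (RatFunc L) := zeroPlace K (RatFunc.X⁻¹ : RatFunc L) transcendental_X_inv
    adjoin_X_inv
  have h0 : w0.A.valuation (RatFunc.X : RatFunc L) < 1 :=
    val_zeroPlace _ transcendental_X RatFunc.adjoin_X
  have h1 : w1.A.valuation (RatFunc.X⁻¹ : RatFunc L) < 1 :=
    val_zeroPlace _ transcendental_X_inv adjoin_X_inv
  have hX0 : (RatFunc.X : RatFunc L) ≠ 0 := RatFunc.X_ne_zero
  have hne : w0 ≠ w1 := by
    intro hw
    rw [← hw, map_inv₀] at h1
    have h2 : 0 < w0.A.valuation (RatFunc.X : RatFunc L) :=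
      zero_lt_iff.2 ((Valuation.ne_zero_iff _).2 hX0)
    exact absurd h0 (not_lt.2 ((inv_lt_one₀ h2).1 h1).le)
  have hsupp : ∀ w : Place K (RatFunc L), w ≠ w0 → w ≠ w1 → w.ord RatFunc.X = 0 := by
    intro w hw0 hw1
    rcases lt_trichotomy (w.A.valuation (RatFunc.X : RatFunc L)) 1 with hlt | heq | hgt
    · exact absurd (Place.unique_zero RatFunc.adjoin_X w w0 hlt h0) hw0
    · exact Place.ord_of_unit w heq
    · refine absurd (Place.unique_zero adjoin_X_inv w w1 ?_ h1) hw1
      rw [map_inv₀]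
      exact inv_lt_one_of_one_lt₀ hgt
  have e0 : w0.ord (RatFunc.X : RatFunc L) = 1 :=
    Place.ord_t w0 transcendental_X RatFunc.adjoin_X h0
  have e1 : w1.ord (RatFunc.X : RatFunc L) = -1 := by
    have := Place.ord_t_inv w1 transcendental_X_inv adjoin_X_inv h1
    rwa [inv_inv] at this
  have c0 : X.ptCycle (red w0 _ h.1.1) (red w0 _ h.2.1) (X.red_isPt w0 _ _ h) =
      X.ptCycle x y hy :=
    X.ptCycle_red w0 h0 RatFunc.adjoin_X x y z hy _ _ h 1 (fun _ => rfl)
      (fun i => by rw [one_mul]; rfl)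
  have c1 : X.ptCycle (red w1 _ h.1.1) (red w1 _ h.2.1) (X.red_isPt w1 _ _ h) =
      X.ptCycle x z hz :=
    X.ptCycle_red w1 h1 adjoin_X_inv x z y hz _ _ h RatFunc.X (fun _ => rfl) (fun i => by
      rw [mul_add, mul_inv_cancel_left₀ hX0, add_comm]; rfl)
  rw [Family.curveCycle, finsum_eq_sum_of_support_subset (s := {w0, w1}), Finset.sum_pair hne,
    e0, e1, c0, c1, one_smul, neg_smul, one_smul, sub_eq_add_neg]
  intro w hw
  rw [Function.mem_support] at hw
  by_contra hcon
  simp only [Finset.coe_insert, Finset.coe_singleton, Set.mem_insert_iff,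
    Set.mem_singleton_iff, not_or] at hcon
  exact hw (by rw [hsupp w hcon.1 hcon.2, zero_smul])

/-- The points with the coordinates in a field `L` and in the rational function field. -/
theorem isPt_ratFunc (B : ProjVar K m s) {x : Fin (m + 1) → L} (hx : B.IsPt x) :
    B.IsPt (fun i => RatFunc.C (x i) : Fin (m + 1) → RatFunc L) := by
  refine ⟨fun h => hx.1 (funext fun i => ?_), fun i => ?_⟩
  · have h1 := congrFun h i
    exact RatFunc.C_injective (h1.trans (map_zero _).symm)
  · have h1 := MvPolynomial.aeval_algebraMap_apply (R := K) (RatFunc L) x (B.form i)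
    refine h1.trans ?_
    rw [hx.2 i, map_zero]

/-- Points of one fibre are rationally equivalent. -/
theorem Family.fibre_equiv (X : Family B n r) {L : Type u} [Field L] [Algebra K L]
    [FiniteDimensional K L] (hL : C2 L) (hn : ∑ i, X.d i * (2 * X.d i ^ 2 + 1) ≤ 3 * n)
    (x : Fin (m + 1) → L) (y y' : Fin (n + 1) → L) (h : X.IsPt x y) (h' : X.IsPt x y') :
    X.ptCycle x y h - X.ptCycle x y' h' ∈ X.ratEquiv := by
  obtain ⟨z, hz, h1, h2⟩ := exists_lines hL (X.fibre x) hn y y'
    ((X.fibre_isPt' x h.1 y).2 h) ((X.fibre_isPt' x h'.1 y').2 h')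
  rw [X.fibre_isPt] at h1 h2
  have hzp := (X.fibre_isPt' x h.1 z).1 hz
  have e1 := X.line_equiv x y z h hzp ⟨isPt_ratFunc B h.1, h1⟩
  have e2 := X.line_equiv x y' z h' hzp ⟨isPt_ratFunc B h.1, h2⟩
  have e3 := sub_mem e1 e2
  rwa [sub_sub_sub_cancel_right] at e3

end ratfunc

end ZC
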