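import Pool.Agent.Helper15.ZF.C3

/-! # Quadratic forms given by homogeneous polynomials of degree two -/

set_option autoImplicit false

open MvPolynomial

namespace ZF.QB

universe u

section form

variable {E : Type*} [Field E] {σ : Type}

/-- A monomial of degree two is a product of two variables. -/
theorem exists_pair {d : σ →₀ ℕ} (hd : d.degree = 2) :
    ∃ i j : σ, d = Finsupp.single i 1 + Finsupp.single j 1 := by
  classical
  have h0 : d ≠ 0 := by
    rintro rfl
    simp at hd
  obtain ⟨i, hi⟩ := Finsupp.ne_iff.1 h0
  have hi1 : Finsupp.single i 1 ≤ d := by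
    rw [Finsupp.single_le_iff]
    exact Nat.one_le_iff_ne_zero.2 hi
  have e1 : d = Finsupp.single i 1 + (d - Finsupp.single i 1) := (add_tsub_cancel_of_le hi1).symm
  have h2 : (d - Finsupp.single i 1).degree = 1 := by
    have h3 := congrArg Finsupp.degree e1
    rw [map_add, hd, Finsupp.degree_single] at h3
    omega
  have h4 : d - Finsupp.single i 1 ≠ 0 := by
    intro h
    rw [h] at h2
    simp at h2
  obtain ⟨j, hj⟩ := Finsupp.ne_iff.1 h4
  have hj1 : Finsupp.single j 1 ≤ d - Finsupp.single i 1 := by
    rw [Finsupp.single_le_iff]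
    exact Nat.one_le_iff_ne_zero.2 hj
  have e2 : d - Finsupp.single i 1 =
      Finsupp.single j 1 + (d - Finsupp.single i 1 - Finsupp.single j 1) :=
    (add_tsub_cancel_of_le hj1).symm
  have h5 : (d - Finsupp.single i 1 - Finsupp.single j 1).degree = 0 := by
    have h3 := congrArg Finsupp.degree e2
    rw [map_add, h2, Finsupp.degree_single] at h3
    omega
  rw [Finsupp.degree_eq_zero_iff] at h5
  rw [h5, add_zero] at e2
  exact ⟨i, j, by rw [← e2]; exact e1⟩

/-- The two variables of a monomial of degree two. -/
noncomputable def vars2 [Nonempty σ] (d : σ →₀ ℕ) : σ × σ :=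
  open Classical in
  if h : d.degree = 2 then ((exists_pair h).choose, (exists_pair h).choose_spec.choose)
  else (Classical.arbitrary σ, Classical.arbitrary σ)

theorem vars2_spec [Nonempty σ] {d : σ →₀ ℕ} (hd : d.degree = 2) :
    d = Finsupp.single (vars2 d).1 1 + Finsupp.single (vars2 d).2 1 := by
  rw [vars2, dif_pos hd]
  exact (exists_pair hd).choose_spec.choose_spec

/-- A bilinear form with `bil q x x = q (x)`. -/
noncomputable def bil [Nonempty σ] (q : MvPolynomial σ E) {A : Type*} [CommRing A] [Algebra E A]
    (x y : σ → A) : A :=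
  ∑ d ∈ q.support, algebraMap E A (q.coeff d) * (x (vars2 d).1 * y (vars2 d).2)

/-- The polar form. -/
noncomputable def pol [Nonempty σ] (q : MvPolynomial σ E) {A : Type*} [CommRing A] [Algebra E A]
    (x y : σ → A) : A :=
  bil q x y + bil q y x

variable [Nonempty σ] {q : MvPolynomial σ E} {A : Type*} [CommRing A] [Algebra E A]

theorem aeval_eq_bil (hq : q.IsHomogeneous 2) (x : σ → A) : aeval x q = bil q x x := by
  classical
  rw [aeval_def, eval₂_eq, bil]
  refine Finset.sum_congr rfl fun d hd => ?_
  have h1 : d.degree = 2 := (hq.degree_eq_sum_deg_support hd).symm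
  congr 1
  have h2 : ∏ i ∈ d.support, x i ^ d i = d.prod fun i k => x i ^ k := rfl
  have h3 : (d.prod fun i k => x i ^ k) =
      (Finsupp.single (vars2 d).1 1 + Finsupp.single (vars2 d).2 1).prod fun i k => x i ^ k :=
    congrArg (fun e : σ →₀ ℕ => e.prod fun i k => x i ^ k) (vars2_spec h1)
  rw [h2, h3, Finsupp.prod_add_index' (fun _ => pow_zero _) (fun _ _ _ => pow_add _ _ _),
    Finsupp.prod_single_index (h := fun i k => x i ^ k) (pow_zero _),
    Finsupp.prod_single_index (h := fun i k => x i ^ k) (pow_zero _), pow_one, pow_one]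

theorem bil_add_left (x y z : σ → A) : bil q (x + y) z = bil q x z + bil q y z := by
  simp only [bil, ← Finset.sum_add_distrib, Pi.add_apply]
  exact Finset.sum_congr rfl fun d _ => by ring

theorem bil_add_right (x y z : σ → A) : bil q x (y + z) = bil q x y + bil q x z := by
  simp only [bil, ← Finset.sum_add_distrib, Pi.add_apply]
  exact Finset.sum_congr rfl fun d _ => by ring

theorem bil_smul_left (a : A) (x y : σ → A) : bil q (a • x) y = a * bil q x y := by
  simp only [bil, Finset.mul_sum, Pi.smul_apply, smul_eq_mul]
  exact Finset.sum_congr rfl fun d _ => by ring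

theorem bil_smul_right (a : A) (x y : σ → A) : bil q x (a • y) = a * bil q x y := by
  simp only [bil, Finset.mul_sum, Pi.smul_apply, smul_eq_mul]
  exact Finset.sum_congr rfl fun d _ => by ring

/-- Base change. -/
theorem bil_map {B : Type*} [CommRing B] [Algebra E B] (s : A →ₐ[E] B) (x y : σ → A) :
    bil q (fun i => s (x i)) (fun i => s (y i)) = s (bil q x y) := by
  simp only [bil, map_sum, map_mul, AlgHom.commutes]

theorem pol_comm (x y : σ → A) : pol q x y = pol q y x := add_comm _ _

theorem pol_add_left (x y z : σ → A) : pol q (x + y) z = pol q x z + pol q y z := by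
  simp only [pol, bil_add_left, bil_add_right]
  ring

theorem pol_smul_left (a : A) (x y : σ → A) : pol q (a • x) y = a * pol q x y := by
  simp only [pol, bil_smul_left, bil_smul_right]
  ring

theorem pol_map {B : Type*} [CommRing B] [Algebra E B] (s : A →ₐ[E] B) (x y : σ → A) :
    pol q (fun i => s (x i)) (fun i => s (y i)) = s (pol q x y) := by
  simp only [pol, bil_map, map_add]

/-- The base change of a vector. -/
def up (L : Type*) [CommRing L] [Algebra E L] (x : σ → E) : σ → L := fun i => algebraMap E L (x i)

theorem bil_up {L : Type*} [CommRing L] [Algebra E L] (x y : σ → E) :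
    bil q (up L x) (up L y) = algebraMap E L (bil q x y) :=
  bil_map (Algebra.ofId E L) x y

theorem pol_up {L : Type*} [CommRing L] [Algebra E L] (x y : σ → E) :
    pol q (up L x) (up L y) = algebraMap E L (pol q x y) :=
  pol_map (Algebra.ofId E L) x y

omit [Nonempty σ] in
theorem up_ne_zero {L : Type*} [Field L] [Algebra E L] {x : σ → E} (hx : x ≠ 0) :
    up L x ≠ 0 := by
  intro h
  apply hx
  funext i
  have h1 := congrFun h i
  exact (algebraMap E L).injective (h1.trans (map_zero _).symm)

/-- The form of degree two along a parametrised curve of degree two. -/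
theorem bil_curve (τ : A) (u v w : σ → A) :
    bil q (u + τ • v + τ ^ 2 • w) (u + τ • v + τ ^ 2 • w) =
      bil q u u + τ * pol q u v + τ ^ 2 * (bil q v v + pol q u w) + τ ^ 3 * pol q v w +
        τ ^ 4 * bil q w w := by
  simp only [pol, bil_add_left, bil_add_right, bil_smul_left, bil_smul_right]
  ring

/-- The same along a line. -/
theorem bil_line (τ : A) (u v : σ → A) :
    bil q (u + τ • v) (u + τ • v) = bil q u u + τ * pol q u v + τ ^ 2 * bil q v v := by
  simp only [pol, bil_add_left, bil_add_right, bil_smul_left, bil_smul_right]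
  ring

theorem pol_zero_left (y : σ → A) : pol q 0 y = 0 := by
  have := pol_smul_left (q := q) (0 : A) (0 : σ → A) y
  rwa [zero_smul, zero_mul] at this

/-- The linear form `z ↦ pol q x z`. -/
noncomputable def lin (q : MvPolynomial σ E) (x : σ → E) : MvPolynomial σ E :=
  ∑ d ∈ q.support, C (q.coeff d) * (C (x (vars2 d).1) * X (vars2 d).2 +
    C (x (vars2 d).2) * X (vars2 d).1)

theorem lin_hom (q : MvPolynomial σ E) (x : σ → E) : (lin q x).IsHomogeneous 1 := by
  refine IsHomogeneous.sum _ _ _ fun d _ => ?_
  have h1 : (C (x (vars2 d).1) * X (vars2 d).2 +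
    C (x (vars2 d).2) * X (vars2 d).1 : MvPolynomial σ E).IsHomogeneous 1 :=
    (isHomogeneous_C_mul_X _ _).add (isHomogeneous_C_mul_X _ _)
  have h2 := (isHomogeneous_C σ (q.coeff d)).mul h1
  rwa [zero_add] at h2

theorem eval_lin (q : MvPolynomial σ E) (x z : σ → E) : eval z (lin q x) = pol q x z := by
  simp only [lin, map_sum, map_mul, map_add, eval_C, eval_X, pol, bil, ← Finset.sum_add_distrib]
  refine Finset.sum_congr rfl fun d _ => ?_
  simp only [Algebra.algebraMap_self, RingHom.id_apply]
  ring

end form

end ZF.QB
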